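import Mathlib

set_option autoImplicit false

namespace Pool.Agent.Results.MP_2432f5_co.NoMaximalFreeWords

/-- The image of a pattern (a word in constants `Sum.inl a`, `a` a letter of the alphabet `A`, and
variables `Sum.inr x`) under the morphism which fixes the constants and maps the variable `x`
to `h x`. -/
def image {A X : Type} (h : X → List A) (p : List (A ⊕ X)) : List A :=
  p.flatMap (Sum.elim (fun a => [a]) h)

/-- The word `w` encounters the pattern `p`. -/
def Encounters {A X : Type} (p : List (A ⊕ X)) (w : List A) : Prop :=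
  ∃ h : X → List A, (∀ x, h x ≠ []) ∧ image h p <:+: w

/-- `w` is `p`-free. -/
def Free {A X : Type} (p : List (A ⊕ X)) (w : List A) : Prop := ¬ Encounters p w

/-- `u` is maximal `p`-free. -/
def MaximalFree {A X : Type} (p : List (A ⊕ X)) (u : List A) : Prop :=
  Free p u ∧ ∀ a b : A, Encounters p (a :: (u ++ [b]))

theorem aux {A X : Type} [Nontrivial A] (s t : A) (q : List (A ⊕ X)) (u : List A) :
    ¬ MaximalFree (Sum.inl s :: (q ++ [Sum.inl t])) u := by
  rintro ⟨hfree, hmax⟩
  obtain ⟨a, ha⟩ := exists_ne s
  obtain ⟨b, hb⟩ := exists_ne t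
  obtain ⟨h, hne, l1, l2, hl⟩ := hmax a b
  have him : image h (Sum.inl s :: (q ++ [Sum.inl t])) = s :: (image h q ++ [t]) := by
    simp [image]
  apply hfree
  refine ⟨h, hne, ?_⟩
  rw [him] at hl ⊢
  cases l1 with
  | nil =>
    simp only [List.nil_append, List.cons_append, List.cons.injEq] at hl
    exact absurd hl.1.symm ha
  | cons c l1 =>
    simp only [List.cons_append, List.cons.injEq] at hl
    obtain ⟨_, hl⟩ := hl
    rcases List.eq_nil_or_concat l2 with h2 | ⟨l3, d, h2⟩
    · subst h2
      exfalso
      have h3 : (l1 ++ s :: image h q) ++ [t] = u ++ [b] := by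
        rw [← hl]
        simp
      have h4 := (List.append_inj' h3 rfl).2
      simp only [List.cons.injEq, and_true] at h4
      exact hb h4.symm
    · rw [h2] at hl
      have h3 : (l1 ++ s :: (image h q ++ [t]) ++ l3) ++ [d] = u ++ [b] := by
        rw [← hl]
        simp
      have h4 := (List.append_inj' h3 rfl).1
      exact ⟨l1, l3, by rw [← h4]⟩

/-- Patterns beginning and ending with a constant never have maximal free words (alphabet with at
least two letters), although the empty word is free; in particular Q1 has a negative answer. -/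
theorem result :
    (∀ (A X : Type) [Finite A] [Nontrivial A] (s t : A) (q : List (A ⊕ X)),
      Free (Sum.inl s :: (q ++ [Sum.inl t])) [] ∧
        ∀ u : List A, ¬ MaximalFree (Sum.inl s :: (q ++ [Sum.inl t])) u) ∧
    ¬ (∀ (A X : Type) [Finite A] (p : List (A ⊕ X)) (w : List A), p ≠ [] → Free p w →
        ∃ u : List A, MaximalFree p u ∧ w <:+: u) := by
  have h1 : ∀ (A X : Type) [Finite A] [Nontrivial A] (s t : A) (q : List (A ⊕ X)),
      Free (Sum.inl s :: (q ++ [Sum.inl t])) [] ∧
        ∀ u : List A, ¬ MaximalFree (Sum.inl s :: (q ++ [Sum.inl t])) u := by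
    intro A X _ _ s t q
    refine ⟨?_, aux s t q⟩
    rintro ⟨h, _, hi⟩
    rw [List.infix_nil] at hi
    simp [image] at hi
  refine ⟨h1, ?_⟩
  intro h
  -- the avoidable pattern `0 x x 1` over the alphabet `{0, 1}`
  obtain ⟨hf, hm⟩ := h1 Bool Unit false true [Sum.inr (), Sum.inr ()]
  obtain ⟨u, hu, _⟩ := h Bool Unit _ [] (by simp) hf
  exact hm u hu

end Pool.Agent.Results.MP_2432f5_co.NoMaximalFreeWords
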